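import Mathlib

/-!
# Real inequalities behind the failure of the generating function asymptotics
(critical Derrida-Retaux recursion, heavy-tailed starting law)
-/

set_option autoImplicit false

open Filter Topology Finset

namespace Pool.Agent.Y975.DR

/-- harmonic tails diverge -/
lemma harm_unbounded (N : ℕ) (B : ℝ) : ∃ j : ℕ, B < ∑ i ∈ range j, (1 : ℝ) / ((N : ℝ) + i + 1) := by
  have h := Real.tendsto_sum_range_one_div_nat_succ_atTop
  have h2 : Tendsto (fun j : ℕ => ∑ i ∈ range (N + j), (1 : ℝ) / ((i : ℝ) + 1)) atTop atTop := by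
    refine h.comp (tendsto_add_atTop_nat N |>.congr fun j => by omega)
  obtain ⟨j, hj⟩ := (h2.eventually_gt_atTop (B + ∑ i ∈ range N, (1 : ℝ) / ((i : ℝ) + 1))).exists
  refine ⟨j, ?_⟩
  rw [sum_range_add] at hj
  have : ∑ x ∈ range j, (1 : ℝ) / (((N + x : ℕ) : ℝ) + 1) = ∑ i ∈ range j, (1 : ℝ) / ((N : ℝ) + i + 1) := by
    refine sum_congr rfl fun i _ => ?_
    push_cast; rfl
  rw [this] at hj
  linarith

/-- Step A: the lower bound `a n ≥ 1.2 / n`. -/
lemma stepA (a u : ℕ → ℝ) (ha : ∀ n, 0 ≤ a n) (hu1 : ∀ n, u n ≤ 1)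
    (hrec : ∀ n, 1 + a (n + 1) = ((1 + a n) ^ 2 + (1 - u n) ^ 2) / 2)
    (N : ℕ) (hN : 6 ≤ N) (hu : ∀ n, N ≤ n → 5 / 2 / (n : ℝ) ^ 2 ≤ u n) :
    ∀ n, N ≤ n → 6 / 5 / (n : ℝ) ≤ a n := by
  intro n hn
  by_contra hlt
  push Not at hlt
  -- recursion inequality
  have key : ∀ m : ℕ, N ≤ m → a (m + 1) ≤ a m + a m ^ 2 / 2 - 12 / 5 / (m : ℝ) ^ 2 := by
    intro m hm
    have hm6 : (6 : ℝ) ≤ m := by exact_mod_cast hN.trans hm
    have hm2 : (0 : ℝ) < (m : ℝ) ^ 2 := by positivity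
    have h1 := hrec m
    have h2 : a (m + 1) = a m + a m ^ 2 / 2 - (u m - u m ^ 2 / 2) := by nlinarith
    have hv := hu m hm
    set v : ℝ := 5 / 2 / (m : ℝ) ^ 2 with hvdef
    have hv0 : 0 ≤ v := by positivity
    have h36 : (36 : ℝ) ≤ (m : ℝ) ^ 2 := by nlinarith
    have hv1 : v ≤ 5 / 72 := by
      rw [hvdef, div_le_iff₀ hm2]; linarith
    have h3 : v - v ^ 2 / 2 ≤ u m - u m ^ 2 / 2 := by
      have := hu1 m
      nlinarith
    have h4 : 12 / 5 / (m : ℝ) ^ 2 = (24 / 25) * v := by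
      rw [hvdef]; ring
    have h5 : (24 / 25) * v ≤ v - v ^ 2 / 2 := by nlinarith
    rw [h2, h4]; linarith
  have claim : ∀ j : ℕ, ((n + j : ℕ) : ℝ) * a (n + j) ≤
      6 / 5 - 12 / 25 * ∑ i ∈ range j, (1 : ℝ) / (((n - 1 : ℕ) : ℝ) + i + 1) := by
    intro j
    induction j with
    | zero =>
      have hn6 : (6 : ℝ) ≤ n := by exact_mod_cast hN.trans hn
      have : a n < 6 / 5 / (n : ℝ) := hlt
      rw [lt_div_iff₀ (by linarith)] at this
      simp only [range_zero, sum_empty, mul_zero, sub_zero, Nat.add_zero]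
      linarith
    | succ j ih =>
      rw [sum_range_succ]
      have hpos : 0 ≤ ∑ i ∈ range j, (1 : ℝ) / (((n - 1 : ℕ) : ℝ) + i + 1) :=
        sum_nonneg fun i _ => by positivity
      set m := n + j with hmdef
      have hm : N ≤ m := by omega
      have hm6 : (6 : ℝ) ≤ m := by exact_mod_cast hN.trans hm
      have hcast : (((n - 1 : ℕ) : ℝ) + j + 1) = (m : ℝ) := by
        have h1 : 1 ≤ n := by omega
        rw [Nat.cast_sub h1, hmdef]; push_cast; ring
      rw [hcast]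
      have hk := key m hm
      set x : ℝ := (m : ℝ) * a m with hx
      have hx0 : 0 ≤ x := mul_nonneg (by linarith) (ha m)
      have hx1 : x ≤ 6 / 5 := by linarith
      have ham : a m = x / m := by rw [hx]; field_simp
      have e1 : ((n + (j + 1) : ℕ) : ℝ) = (m : ℝ) + 1 := by rw [hmdef]; push_cast; ring
      have e2 : n + (j + 1) = m + 1 := by omega
      rw [e1, e2]
      have h6 : ((m : ℝ) + 1) * a (m + 1) ≤ ((m : ℝ) + 1) * (x / m + (x / m) ^ 2 / 2 - 12 / 5 / (m : ℝ) ^ 2) := by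
        rw [ham] at hk
        exact mul_le_mul_of_nonneg_left hk (by linarith)
      have h7 : ((m : ℝ) + 1) * (x / m + (x / m) ^ 2 / 2 - 12 / 5 / (m : ℝ) ^ 2) =
          x + (x + x ^ 2 / 2 - 12 / 5) * (1 / m) + (x ^ 2 / 2 - 12 / 5) * (1 / (m : ℝ) ^ 2) := by
        field_simp
        ring
      have h8 : (x + x ^ 2 / 2 - 12 / 5) * (1 / (m : ℝ)) ≤ (-(12 / 25)) * (1 / m) := by
        apply mul_le_mul_of_nonneg_right _ (by positivity)
        nlinarith
      have h9 : (x ^ 2 / 2 - 12 / 5) * (1 / (m : ℝ) ^ 2) ≤ 0 := by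
        apply mul_nonpos_of_nonpos_of_nonneg _ (by positivity)
        nlinarith
      linarith
  obtain ⟨j, hj⟩ := harm_unbounded (n - 1) 5
  have h1 := claim j
  have h2 : 0 ≤ ((n + j : ℕ) : ℝ) * a (n + j) := mul_nonneg (Nat.cast_nonneg _) (ha _)
  linarith

/-- Step D: growth of the product. -/
lemma stepD (a : ℕ → ℝ) (ha : ∀ n, 0 ≤ a n) (N : ℕ) (hN : 1 ≤ N)
    (h : ∀ n, N ≤ n → 6 / 5 / (n : ℝ) ≤ a n) (j : ℕ) :
    (((N + j : ℕ) : ℝ) / N) * (1 + 1 / 10 * ∑ i ∈ range j, (1 : ℝ) / (((N - 1 : ℕ) : ℝ) + i + 1)) ≤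
      ∏ i ∈ range (N + j), (1 + a i) := by
  have hNpos : (0 : ℝ) < N := by exact_mod_cast hN
  induction j with
  | zero =>
    simp only [Nat.add_zero, range_zero, sum_empty, mul_zero, add_zero, mul_one, div_self hNpos.ne']
    exact Finset.one_le_prod fun i _ => by linarith [ha i]
  | succ j ih =>
    have e : N + (j + 1) = (N + j) + 1 := by omega
    rw [e, prod_range_succ, sum_range_succ]
    set n := N + j with hn
    have hnN : N ≤ n := by omega
    have hn1 : (1 : ℝ) ≤ n := by exact_mod_cast hN.trans hnN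
    have hcast : (((N - 1 : ℕ) : ℝ) + j + 1) = (n : ℝ) := by
      rw [Nat.cast_sub hN, hn]; push_cast; ring
    rw [hcast]
    set s : ℝ := ∑ i ∈ range j, (1 : ℝ) / (((N - 1 : ℕ) : ℝ) + i + 1) with hs
    have hs0 : 0 ≤ s := sum_nonneg fun i _ => by positivity
    have h1 : 0 ≤ ((n : ℝ) / N) * (1 + 1 / 10 * s) := by positivity
    have h2 : ((n : ℝ) / N) * (1 + 1 / 10 * s) * (1 + 6 / 5 / n) ≤ (∏ i ∈ range n, (1 + a i)) * (1 + a n) := by
      apply mul_le_mul ih _ (by positivity) (le_trans h1 ih)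
      linarith [h n hnN]
    refine le_trans ?_ h2
    have h3 : ((n : ℝ) / N) * (1 + 1 / 10 * s) * (1 + 6 / 5 / n) =
        ((n + 6 / 5) * (1 + 1 / 10 * s)) / N := by
      field_simp
    have h4 : (((n + 1 : ℕ) : ℝ) / N) * (1 + 1 / 10 * (s + 1 / n)) =
        ((n + 1) * (1 + 1 / 10 * s) + 1 / 10 * (1 + 1 / n)) / N := by
      push_cast
      field_simp
      ring
    rw [h3, h4]
    apply div_le_div_of_nonneg_right _ hNpos.le
    have h5 : 1 / (n : ℝ) ≤ 1 := by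
      rw [div_le_one (by linarith)]; exact hn1
    nlinarith

/-- The contradiction. -/
theorem contra (a u : ℕ → ℝ) (T : ℕ → ℕ → ℝ) (ha : ∀ n, 0 ≤ a n) (hu0 : ∀ n, 0 ≤ u n)
    (hu1 : ∀ n, u n ≤ 1)
    (hrec : ∀ n, 1 + a (n + 1) = ((1 + a n) ^ 2 + (1 - u n) ^ 2) / 2)
    (hu : ∃ N : ℕ, ∀ n, N ≤ n → 5 / 2 / (n : ℝ) ^ 2 ≤ u n)
    (hT0 : ∀ n : ℕ, 1 ≤ n → 1 / (8 * (n : ℝ) ^ 2) ≤ T 0 (2 * n))
    (hTstep : ∀ n K, 1 ≤ K → T n (K + 1) * (1 + a n - T n (K + 1) / 2) ≤ T (n + 1) K)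
    (hTb : ∀ n K : ℕ, (K : ℝ) * T n (K + 1) ≤ 1) (hTn : ∀ n K, 0 ≤ T n K) : False := by
  obtain ⟨N₀, hN₀⟩ := hu
  set N := max N₀ 6 with hNdef
  have hN6 : 6 ≤ N := le_max_right _ _
  have hA := stepA a u ha hu1 hrec N hN6 (fun n hn => hN₀ n ((le_max_left _ _).trans hn))
  -- step B
  have hB : ∀ n : ℕ, 1 ≤ n → ∀ j : ℕ, j ≤ n →
      T 0 (2 * n) * ∏ i ∈ range j, ((1 + a i) * (1 - 1 / (2 * (n : ℝ)))) ≤ T j (2 * n - j) := by
    intro n hn j
    have hn1 : (1 : ℝ) ≤ n := by exact_mod_cast hn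
    have h1n : 1 / (2 * (n : ℝ)) ≤ 1 / 2 := by
      apply one_div_le_one_div_of_le (by norm_num); linarith
    have h1p : 0 ≤ 1 / (2 * (n : ℝ)) := by positivity
    induction j with
    | zero => intro _; simp
    | succ j ih =>
      intro hj
      have ih' := ih (by omega)
      have e : 2 * n - j = (2 * n - (j + 1)) + 1 := by omega
      have hK : 1 ≤ 2 * n - (j + 1) := by omega
      have hst := hTstep j (2 * n - (j + 1)) hK
      rw [← e] at hst
      have hb := hTb j (2 * n - (j + 1))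
      rw [← e] at hb
      have hKn : (n : ℝ) ≤ ((2 * n - (j + 1) : ℕ) : ℝ) := by
        exact_mod_cast (by omega : n ≤ 2 * n - (j + 1))
      have hTj := hTn j (2 * n - j)
      have hnT : (n : ℝ) * T j (2 * n - j) ≤ 1 := le_trans (mul_le_mul_of_nonneg_right hKn hTj) hb
      have hT2 : T j (2 * n - j) / 2 ≤ 1 / (2 * (n : ℝ)) := by
        rw [div_le_div_iff₀ (by norm_num) (by positivity)]
        linarith
      have hf : (1 + a j) * (1 - 1 / (2 * (n : ℝ))) ≤ 1 + a j - T j (2 * n - j) / 2 := by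
        have := ha j
        nlinarith
      have hf0 : 0 ≤ (1 + a j) * (1 - 1 / (2 * (n : ℝ))) := by
        apply mul_nonneg (by linarith [ha j]) (by linarith)
      rw [prod_range_succ, ← mul_assoc]
      refine le_trans ?_ hst
      exact mul_le_mul ih' hf hf0 hTj
  -- step C and D, contradiction
  obtain ⟨j, hj⟩ := harm_unbounded (N - 1) (10 * (32 * (N : ℝ)))
  have hD := stepD a ha N (by omega) hA j
  set n := N + j with hn
  have hn1 : 1 ≤ n := by omega
  have hn6 : (6 : ℝ) ≤ n := by exact_mod_cast (by omega : 6 ≤ n)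
  have hNpos : (0 : ℝ) < N := by exact_mod_cast (by omega : 0 < N)
  have h1 := hB n hn1 n le_rfl
  have e : 2 * n - n = n := by omega
  rw [e, prod_mul_distrib, prod_const, card_range] at h1
  have hbern : (1 : ℝ) / 2 ≤ (1 - 1 / (2 * (n : ℝ))) ^ n := by
    have := one_add_mul_le_pow (a := -(1 / (2 * (n : ℝ)))) (by
      have : 1 / (2 * (n : ℝ)) ≤ 1 / 2 := by
        apply one_div_le_one_div_of_le (by norm_num); linarith
      linarith) n
    have h2 : 1 + (n : ℝ) * -(1 / (2 * (n : ℝ))) = 1 / 2 := by field_simp; norm_num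
    rw [h2] at this
    have h3 : (1 : ℝ) + -(1 / (2 * (n : ℝ))) = 1 - 1 / (2 * (n : ℝ)) := by ring
    rwa [h3] at this
  have hb := hTb n (n - 1)
  have e2 : n - 1 + 1 = n := by omega
  rw [e2] at hb
  have hc : ((n - 1 : ℕ) : ℝ) = (n : ℝ) - 1 := by rw [Nat.cast_sub hn1]; norm_num
  rw [hc] at hb
  have hT0' := hT0 n hn1
  set Pi := ∏ i ∈ range n, (1 + a i) with hPi
  have hsum : 10 * (32 * (N : ℝ)) < ∑ i ∈ range j, (1 : ℝ) / (((N - 1 : ℕ) : ℝ) + i + 1) := hj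
  have hPi' : ((n : ℝ) / N) * (32 * N) < Pi := by
    refine lt_of_lt_of_le ?_ hD
    apply mul_lt_mul_of_pos_left _ (by positivity)
    linarith
  have hPi'' : 32 * (n : ℝ) < Pi := by
    have : ((n : ℝ) / N) * (32 * N) = 32 * n := by field_simp
    linarith
  have hPi0 : 0 < Pi := by linarith
  have h5 : (1 / (8 * (n : ℝ) ^ 2)) * (Pi * (1 / 2)) ≤ T n n := by
    refine le_trans ?_ h1
    apply mul_le_mul hT0' _ (by positivity) (hTn 0 _)
    exact mul_le_mul_of_nonneg_left hbern hPi0.le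
  have h6 : (1 / (8 * (n : ℝ) ^ 2)) * (32 * (n : ℝ) * (1 / 2)) < (1 / (8 * (n : ℝ) ^ 2)) * (Pi * (1 / 2)) := by
    apply mul_lt_mul_of_pos_left _ (by positivity)
    linarith
  have h7 : (1 / (8 * (n : ℝ) ^ 2)) * (32 * (n : ℝ) * (1 / 2)) = 2 / n := by
    field_simp; norm_num
  have h8 : 2 / (n : ℝ) < T n n := by linarith
  have h9 : ((n : ℝ) - 1) * (2 / n) < 1 := by
    refine lt_of_lt_of_le ?_ hb
    exact mul_lt_mul_of_pos_left h8 (by linarith)
  have h10 : ((n : ℝ) - 1) * (2 / n) = 2 - 2 / n := by field_simp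
  rw [h10] at h9
  have h11 : 2 / (n : ℝ) ≤ 1 / 3 := by
    rw [div_le_div_iff₀ (by linarith) (by norm_num)]; linarith
  linarith

end Pool.Agent.Y975.DR
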