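import Mathlib

/-!
# The recursion `X ↦ (X + X' - 1)⁺` on laws on the non-negative integers, criticality, tails
-/

set_option autoImplicit false

open Filter Topology Finset

namespace Pool.Agent.Y975.DR

/-- One step of the recursion with two summands, exactly as in the frozen statement. -/
noncomputable def step (p : ℕ → ℝ) (k : ℕ) : ℝ :=
  (∑ x : Fin 2 → Fin (k + 2), if (∑ i, (x i : ℕ)) = k + 1 then ∏ i, p (x i) else 0)
    + (if k = 0 then p 0 ^ 2 else 0)

lemma step_eq (p : ℕ → ℝ) (k : ℕ) :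
    step p k = ∑ ij ∈ antidiagonal (k + 1), p ij.1 * p ij.2 + (if k = 0 then p 0 ^ 2 else 0) := by
  unfold step
  congr 1
  have h1 : (∑ x : Fin 2 → Fin (k + 2), if (∑ i, (x i : ℕ)) = k + 1 then ∏ i, p (x i) else 0) =
      ∑ a : Fin (k + 2) × Fin (k + 2), if (a.1 : ℕ) + a.2 = k + 1 then p a.1 * p a.2 else 0 := by
    rw [← (finTwoArrowEquiv (Fin (k + 2))).sum_comp]
    refine sum_congr rfl fun x _ => ?_
    simp [finTwoArrowEquiv, Fin.sum_univ_two, Fin.prod_univ_two]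
  rw [h1, Fintype.sum_prod_type, Finset.Nat.sum_antidiagonal_eq_sum_range_succ_mk,
    ← Fin.sum_univ_eq_sum_range (fun i => p i * p (k + 1 - i)) (k + 1).succ]
  refine sum_congr rfl fun a _ => ?_
  have ha := a.2
  rw [Finset.sum_eq_single (⟨k + 1 - a, by omega⟩ : Fin (k + 2))]
  · rw [if_pos]
    show (a : ℕ) + (k + 1 - a) = k + 1
    omega
  · intro b _ hb
    rw [if_neg]
    intro h
    apply hb
    apply Fin.ext
    show (b : ℕ) = k + 1 - a
    simp only at h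
    omega
  · intro h
    exact absurd (mem_univ _) h

lemma cauchy (f g : ℕ → ℝ) (hf : ∀ k, 0 ≤ f k) (hg : ∀ k, 0 ≤ g k) (sf : Summable f)
    (sg : Summable g) :
    HasSum (fun l => ∑ ij ∈ antidiagonal l, f ij.1 * g ij.2) ((∑' k, f k) * (∑' k, g k)) := by
  have nf : Summable fun x => ‖f x‖ := by
    refine sf.congr fun k => ?_
    rw [Real.norm_of_nonneg (hf k)]
  have ng : Summable fun x => ‖g x‖ := by
    refine sg.congr fun k => ?_
    rw [Real.norm_of_nonneg (hg k)]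
  have h1 := tsum_mul_tsum_eq_tsum_sum_antidiagonal_of_summable_norm nf ng
  have h2 := (summable_norm_sum_mul_antidiagonal_of_summable_norm nf ng).of_norm
  rw [h1]
  exact h2.hasSum

lemma hasSum_shift (f : ℕ → ℝ) (s : ℝ) (hf : HasSum f s) :
    HasSum (fun k => f (k + 1)) (s - f 0) := by
  have := (hasSum_nat_add_iff' (f := f) 1).2 hf
  simpa using this

/-- A critical law with nonnegative weights. -/
structure Good (p : ℕ → ℝ) : Prop where
  nonneg : ∀ k, 0 ≤ p k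
  one : HasSum p 1
  s0 : Summable fun k : ℕ => p k * (2 : ℝ) ^ k
  s1 : Summable fun k : ℕ => (k : ℝ) * (p k * (2 : ℝ) ^ k)
  crit : ∑' k : ℕ, (k : ℝ) * (p k * (2 : ℝ) ^ k) = ∑' k : ℕ, p k * (2 : ℝ) ^ k

/-- `E 2^X`. -/
noncomputable def S (p : ℕ → ℝ) : ℝ := ∑' k : ℕ, p k * (2 : ℝ) ^ k

/-- `E (2^X 1(X ≥ K))`. -/
noncomputable def T (p : ℕ → ℝ) (K : ℕ) : ℝ := S p - ∑ k ∈ range K, p k * (2 : ℝ) ^ k

/-- auxiliary: the convolution weights. -/
noncomputable def conv (p : ℕ → ℝ) (l : ℕ) : ℝ :=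
  ∑ ij ∈ antidiagonal l, (p ij.1 * (2 : ℝ) ^ ij.1) * (p ij.2 * (2 : ℝ) ^ ij.2)

lemma conv_eq (p : ℕ → ℝ) (l : ℕ) :
    conv p l = (∑ ij ∈ antidiagonal l, p ij.1 * p ij.2) * 2 ^ l := by
  unfold conv
  rw [sum_mul]
  refine sum_congr rfl fun ij hij => ?_
  rw [HasAntidiagonal.mem_antidiagonal] at hij
  rw [← hij, pow_add]
  ring

lemma step_two (p : ℕ → ℝ) (k : ℕ) :
    step p k * 2 ^ k = conv p (k + 1) / 2 + (if k = 0 then p 0 ^ 2 else 0) := by
  rw [step_eq, conv_eq, add_mul]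
  congr 1
  · rw [pow_succ]; ring
  · split_ifs with h
    · subst h; simp
    · simp

lemma conv_zero (p : ℕ → ℝ) : conv p 0 = p 0 ^ 2 := by
  simp [conv]; ring

lemma hasSum_ite_zero (c : ℝ) : HasSum (fun k : ℕ => if k = 0 then c else 0) c :=
  hasSum_ite_eq 0 c

namespace Good

variable {p : ℕ → ℝ}

lemma q_nonneg (h : Good p) (k : ℕ) : 0 ≤ p k * (2 : ℝ) ^ k := mul_nonneg (h.nonneg k) (by positivity)

lemma conv_hasSum (h : Good p) : HasSum (conv p) (S p ^ 2) := by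
  have := cauchy (fun k => p k * (2 : ℝ) ^ k) (fun k => p k * (2 : ℝ) ^ k) h.q_nonneg h.q_nonneg
    h.s0 h.s0
  rw [sq]
  exact this

lemma conv_hasSum1 (h : Good p) : HasSum (fun l : ℕ => (l : ℝ) * conv p l) (2 * S p ^ 2) := by
  have hk : ∀ k : ℕ, 0 ≤ (k : ℝ) * (p k * (2 : ℝ) ^ k) := fun k =>
    mul_nonneg (Nat.cast_nonneg k) (h.q_nonneg k)
  have h1 := cauchy (fun k => (k : ℝ) * (p k * (2 : ℝ) ^ k)) (fun k => p k * (2 : ℝ) ^ k) hk
    h.q_nonneg h.s1 h.s0
  have h2 := cauchy (fun k => p k * (2 : ℝ) ^ k) (fun k => (k : ℝ) * (p k * (2 : ℝ) ^ k))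
    h.q_nonneg hk h.s0 h.s1
  have h3 := h1.add h2
  rw [h.crit] at h3
  have e : (∑' k : ℕ, p k * (2 : ℝ) ^ k) * (∑' k : ℕ, p k * (2 : ℝ) ^ k) +
      (∑' k : ℕ, p k * (2 : ℝ) ^ k) * (∑' k : ℕ, p k * (2 : ℝ) ^ k) = 2 * S p ^ 2 := by
    unfold S; ring
  rw [e] at h3
  convert h3 using 1
  funext l
  unfold conv
  rw [mul_sum, ← sum_add_distrib]
  refine sum_congr rfl fun ij hij => ?_
  rw [HasAntidiagonal.mem_antidiagonal] at hij
  rw [← hij]
  push_cast
  ring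

lemma p0_le (h : Good p) : p 0 ≤ 1 := le_hasSum h.one 0 fun k _ => h.nonneg k

lemma step_hasSum (h : Good p) :
    HasSum (fun k => step p k * (2 : ℝ) ^ k) ((S p ^ 2 + p 0 ^ 2) / 2) := by
  have h1 := hasSum_shift _ _ h.conv_hasSum
  have h2 := (h1.div_const 2).add (hasSum_ite_zero (p 0 ^ 2))
  have e : (S p ^ 2 - conv p 0) / 2 + p 0 ^ 2 = (S p ^ 2 + p 0 ^ 2) / 2 := by
    rw [conv_zero]; ring
  rw [e] at h2
  have e2 : (fun k => step p k * (2 : ℝ) ^ k) =
      fun k => conv p (k + 1) / 2 + (if k = 0 then p 0 ^ 2 else 0) := funext fun k => step_two p k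
  rw [e2]
  exact h2

lemma step_hasSum1 (h : Good p) :
    HasSum (fun k : ℕ => (k : ℝ) * (step p k * (2 : ℝ) ^ k)) ((S p ^ 2 + p 0 ^ 2) / 2) := by
  have h1 := hasSum_shift _ _ h.conv_hasSum
  have h2 := hasSum_shift _ _ h.conv_hasSum1
  have h3 := (h2.sub h1).div_const 2
  have e : (2 * S p ^ 2 - ((0 : ℕ) : ℝ) * conv p 0 - (S p ^ 2 - conv p 0)) / 2
      = (S p ^ 2 + p 0 ^ 2) / 2 := by
    rw [conv_zero]; push_cast; ring
  rw [e] at h3
  have e2 : (fun k : ℕ => (k : ℝ) * (step p k * (2 : ℝ) ^ k)) =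
      fun k : ℕ => (((k + 1 : ℕ) : ℝ) * conv p (k + 1) - conv p (k + 1)) / 2 := by
    funext k
    rw [step_two]
    split_ifs with hk
    · subst hk; push_cast; ring
    · push_cast; ring
  rw [e2]
  exact h3

/-- Good laws are preserved. -/
theorem step_good (h : Good p) : Good (step p) where
  nonneg k := by
    rw [step_eq]
    apply add_nonneg
    · exact sum_nonneg fun ij _ => mul_nonneg (h.nonneg _) (h.nonneg _)
    · split_ifs
      · positivity
      · exact le_rfl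
  one := by
    have h1 := cauchy p p h.nonneg h.nonneg h.one.summable h.one.summable
    rw [h.one.tsum_eq] at h1
    have h2 := (hasSum_shift _ _ h1).add (hasSum_ite_zero (p 0 ^ 2))
    have e : (1 : ℝ) * 1 - (∑ ij ∈ antidiagonal 0, p ij.1 * p ij.2) + p 0 ^ 2 = 1 := by
      simp; ring
    rw [e] at h2
    convert h2 using 1
    funext k
    exact step_eq p k
  s0 := h.step_hasSum.summable
  s1 := h.step_hasSum1.summable
  crit := by rw [h.step_hasSum.tsum_eq, h.step_hasSum1.tsum_eq]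

theorem S_step (h : Good p) : S (step p) = (S p ^ 2 + p 0 ^ 2) / 2 := h.step_hasSum.tsum_eq

theorem one_le_S (h : Good p) : 1 ≤ S p := by
  have := h.s0.hasSum
  refine hasSum_le (fun k => ?_) h.one this
  have h1 : (1 : ℝ) ≤ 2 ^ k := one_le_pow₀ (by norm_num)
  nlinarith [h.nonneg k]

theorem T_nonneg (h : Good p) (K : ℕ) : 0 ≤ T p K := by
  unfold T S
  rw [sub_nonneg]
  exact h.s0.sum_le_tsum _ fun k _ => h.q_nonneg k

/-- partial sums of the convolution -/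
lemma sum_conv_le (h : Good p) (K : ℕ) :
    ∑ l ∈ range K, conv p l ≤ (∑ k ∈ range K, p k * (2 : ℝ) ^ k) ^ 2 := by
  classical
  unfold conv
  rw [← Finset.sum_biUnion, sq, sum_mul_sum, ← Finset.sum_product']
  · apply Finset.sum_le_sum_of_subset_of_nonneg
    · intro ij hij
      rw [mem_biUnion] at hij
      obtain ⟨l, hl, hij⟩ := hij
      rw [HasAntidiagonal.mem_antidiagonal] at hij
      rw [mem_range] at hl
      rw [mem_product, mem_range, mem_range]
      omega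
    · intro ij _ _
      exact mul_nonneg (h.q_nonneg _) (h.q_nonneg _)
  · intro l _ l' _ hll
    rw [Function.onFun, Finset.disjoint_left]
    intro ij h1 h2
    rw [HasAntidiagonal.mem_antidiagonal] at h1 h2
    exact hll (h1.symm.trans h2)

/-- The tails of the next law. -/
theorem T_step (h : Good p) (K : ℕ) (hK : 1 ≤ K) :
    T p (K + 1) * (S p - T p (K + 1) / 2) ≤ T (step p) K := by
  obtain ⟨K, rfl⟩ : ∃ k, K = k + 1 := ⟨K - 1, by omega⟩
  have h1 : ∑ k ∈ range (K + 1), step p k * (2 : ℝ) ^ k =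
      (∑ l ∈ range (K + 2), conv p l) / 2 + p 0 ^ 2 / 2 := by
    have e1 : ∑ k ∈ range (K + 1), step p k * (2 : ℝ) ^ k =
        ∑ k ∈ range (K + 1), (conv p (k + 1) / 2 + (if k = 0 then p 0 ^ 2 else 0)) :=
      sum_congr rfl fun k _ => step_two p k
    rw [e1, sum_add_distrib, sum_ite_eq' (range (K + 1)) 0 (fun _ => p 0 ^ 2),
      if_pos (mem_range.2 (by omega)), ← sum_div, sum_range_succ' (conv p) (K + 1), conv_zero]
    ring
  have h2 : T (step p) (K + 1) = (S p ^ 2 - ∑ l ∈ range (K + 2), conv p l) / 2 := by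
    unfold T
    rw [h.S_step, h1]
    ring
  rw [h2]
  have h3 := h.sum_conv_le (K + 2)
  have h4 : ∑ k ∈ range (K + 2), p k * (2 : ℝ) ^ k = S p - T p (K + 2) := by
    unfold T; ring
  rw [h4] at h3
  have e : K + 1 + 1 = K + 2 := rfl
  rw [e]
  nlinarith

/-- Criticality bounds the tails. -/
theorem T_bound (h : Good p) (K : ℕ) : (K : ℝ) * T p (K + 1) ≤ 1 := by
  -- the tail as a sum
  have hT : HasSum (fun k => p (k + (K + 1)) * (2 : ℝ) ^ (k + (K + 1))) (T p (K + 1)) :=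
    (hasSum_nat_add_iff' (f := fun k => p k * (2 : ℝ) ^ k) (K + 1)).2 h.s0.hasSum
  have hr : HasSum (fun k : ℕ => (k : ℝ) * (p k * (2 : ℝ) ^ k) - p k * (2 : ℝ) ^ k) 0 := by
    have := h.s1.hasSum.sub h.s0.hasSum
    rwa [h.crit, sub_self] at this
  have hr2 := (hasSum_nat_add_iff' (f := fun k : ℕ => (k : ℝ) * (p k * (2 : ℝ) ^ k) -
    p k * (2 : ℝ) ^ k) (K + 1)).2 hr
  have h1 : (K : ℝ) * T p (K + 1) ≤ 0 - ∑ i ∈ range (K + 1),
      ((i : ℝ) * (p i * (2 : ℝ) ^ i) - p i * (2 : ℝ) ^ i) := by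
    refine hasSum_le (fun k => ?_) (hT.mul_left (K : ℝ)) hr2
    have := h.q_nonneg (k + (K + 1))
    have e : (((k + (K + 1) : ℕ) : ℝ)) = (k : ℝ) + K + 1 := by push_cast; ring
    rw [e]
    have hk : (0 : ℝ) ≤ k := Nat.cast_nonneg k
    nlinarith
  have h2 : -1 ≤ ∑ i ∈ range (K + 1), ((i : ℝ) * (p i * (2 : ℝ) ^ i) - p i * (2 : ℝ) ^ i) := by
    rw [sum_range_succ']
    have h3 : 0 ≤ ∑ k ∈ range K, (((k + 1 : ℕ) : ℝ) * (p (k + 1) * (2 : ℝ) ^ (k + 1)) -
        p (k + 1) * (2 : ℝ) ^ (k + 1)) := by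
      refine sum_nonneg fun k _ => ?_
      have := h.q_nonneg (k + 1)
      push_cast
      have hk : (0 : ℝ) ≤ k := Nat.cast_nonneg k
      nlinarith
    have h4 := h.p0_le
    simp only [Nat.cast_zero, zero_mul, pow_zero, mul_one]
    linarith
  linarith

end Good

end Pool.Agent.Y975.DR
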