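import Mathlib
import Pool.Agent.Y975.DR.Seq
import Pool.Agent.Y975.DR.Real

/-!
# A heavy-tailed critical starting law, and the failure of the asymptotics
-/

set_option autoImplicit false

open Filter Topology Finset

namespace Pool.Agent.Y975.DR

lemma tele (g : ℕ → ℝ) (hg : Tendsto g atTop (𝓝 0)) (hm : ∀ k, g (k + 1) ≤ g k) :
    HasSum (fun k => g k - g (k + 1)) (g 0) := by
  rw [hasSum_iff_tendsto_nat_of_nonneg (fun k => sub_nonneg.2 (hm k))]
  have h1 : (fun n : ℕ => ∑ i ∈ range n, (g i - g (i + 1))) = fun n => g 0 - g n := by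
    funext n
    exact Finset.sum_range_sub' g n
  rw [h1]
  have := hg.const_sub (g 0)
  simpa using this

lemma tendsto_aux (c : ℝ) : Tendsto (fun k : ℕ => 1 / ((k : ℝ) + c)) atTop (𝓝 0) := by
  have h : Tendsto (fun k : ℕ => (k : ℝ) + c) atTop atTop :=
    tendsto_atTop_add_const_right _ _ tendsto_natCast_atTop_atTop
  have h2 := h.inv_tendsto_atTop
  refine h2.congr fun k => ?_
  simp [one_div]

/-- `∑ 1/((k+2)(k+3)) = 1/2` -/
lemma sumA : HasSum (fun k : ℕ => 1 / (((k : ℝ) + 2) * ((k : ℝ) + 3))) (1 / 2) := by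
  have h := tele (fun k : ℕ => 1 / ((k : ℝ) + 2)) (tendsto_aux 2) (fun k => by
    push_cast
    apply one_div_le_one_div_of_le (by positivity); linarith)
  have e : (fun k : ℕ => 1 / ((k : ℝ) + 2) - 1 / (((k + 1 : ℕ) : ℝ) + 2)) =
      fun k : ℕ => 1 / (((k : ℝ) + 2) * ((k : ℝ) + 3)) := by
    funext k
    push_cast
    field_simp
    ring
  rw [e] at h
  simpa using h

/-- the weights of the tail -/
noncomputable def w (k : ℕ) : ℝ := 1 / (((k : ℝ) + 1) * ((k : ℝ) + 2) * ((k : ℝ) + 3))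

lemma w_pos (k : ℕ) : 0 < w k := by unfold w; positivity

/-- `∑_{k} w (k + K) = 1/(2(K+1)(K+2))` -/
lemma sum_w (K : ℕ) : HasSum (fun k : ℕ => w (k + K)) (1 / (2 * ((K : ℝ) + 1) * ((K : ℝ) + 2))) := by
  have h := tele (fun k : ℕ => 1 / (2 * ((k : ℝ) + K + 1) * ((k : ℝ) + K + 2))) (by
      have h1 := (tendsto_aux ((K : ℝ) + 1)).mul (tendsto_aux ((K : ℝ) + 2))
      have h2 := h1.const_mul (1 / 2)
      rw [mul_zero, mul_zero] at h2
      refine h2.congr fun k => ?_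
      field_simp
      ring) (fun k => by
      push_cast
      apply one_div_le_one_div_of_le (by positivity)
      nlinarith [Nat.cast_nonneg (α := ℝ) k, Nat.cast_nonneg (α := ℝ) K])
  have e : (fun k : ℕ => 1 / (2 * ((k : ℝ) + K + 1) * ((k : ℝ) + K + 2)) -
      1 / (2 * (((k + 1 : ℕ) : ℝ) + K + 1) * (((k + 1 : ℕ) : ℝ) + K + 2))) =
      fun k : ℕ => w (k + K) := by
    funext k
    unfold w
    push_cast
    field_simp
    ring
  rw [e] at h
  simpa using h

lemma sum_w0 : HasSum w (1 / 4) := by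
  have := sum_w 0
  norm_num at this
  simpa using this

/-- mass of the tail -/
noncomputable def sg : ℝ := ∑' k : ℕ, w k / 2 ^ (k + 2)

lemma summable_tail : Summable fun k : ℕ => w k / (2 : ℝ) ^ (k + 2) := by
  refine Summable.of_nonneg_of_le (fun k => ?_) (fun k => ?_) sum_w0.summable
  · have := w_pos k; positivity
  · have := w_pos k
    apply div_le_self this.le
    exact one_le_pow₀ (by norm_num)

lemma sg_le : sg ≤ 1 / 4 := by
  refine hasSum_le (fun k => ?_) summable_tail.hasSum sum_w0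
  have := w_pos k
  apply div_le_self this.le
  exact one_le_pow₀ (by norm_num)

/-- the starting law -/
noncomputable def p₀ : ℕ → ℝ
  | 0 => 1 / 2
  | 1 => 1 / 2 - sg
  | (k + 2) => w k / 2 ^ (k + 2)

lemma q_tail (k : ℕ) : p₀ (k + 2) * (2 : ℝ) ^ (k + 2) = w k := by
  show w k / 2 ^ (k + 2) * (2 : ℝ) ^ (k + 2) = w k
  field_simp

lemma q_hasSum : HasSum (fun k : ℕ => p₀ k * (2 : ℝ) ^ k) (1 / 4 + (1 / 2 + (1 / 2 - sg) * 2)) := by
  have h : HasSum (fun k : ℕ => p₀ (k + 2) * (2 : ℝ) ^ (k + 2)) (1 / 4) := by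
    have e : (fun k : ℕ => p₀ (k + 2) * (2 : ℝ) ^ (k + 2)) = w := funext q_tail
    rw [e]
    exact sum_w0
  have h2 := (hasSum_nat_add_iff (f := fun k : ℕ => p₀ k * (2 : ℝ) ^ k) 2).1 h
  simp only [sum_range_succ, range_zero, sum_empty, pow_zero, pow_one, mul_one, zero_add] at h2
  exact h2

lemma q1_hasSum : HasSum (fun k : ℕ => (k : ℝ) * (p₀ k * (2 : ℝ) ^ k))
    (1 / 4 + (1 / 2 + (1 / 2 - sg) * 2)) := by
  have h : HasSum (fun k : ℕ => ((k + 2 : ℕ) : ℝ) * (p₀ (k + 2) * (2 : ℝ) ^ (k + 2)))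
      (1 / 2 + 1 / 4) := by
    have e : (fun k : ℕ => ((k + 2 : ℕ) : ℝ) * (p₀ (k + 2) * (2 : ℝ) ^ (k + 2))) =
        fun k : ℕ => 1 / (((k : ℝ) + 2) * ((k : ℝ) + 3)) + w k := by
      funext k
      rw [q_tail]
      unfold w
      push_cast
      field_simp
      ring
    rw [e]
    exact sumA.add sum_w0
  have h2 := (hasSum_nat_add_iff (f := fun k : ℕ => (k : ℝ) * (p₀ k * (2 : ℝ) ^ k)) 2).1 h
  simp only [sum_range_succ, range_zero, sum_empty, pow_zero, pow_one, mul_one, zero_add,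
    Nat.cast_zero, Nat.cast_one, zero_mul, one_mul] at h2
  have e : (1 : ℝ) / 4 + (1 / 2 + (1 / 2 - sg) * 2) = 1 / 2 + 1 / 4 + (p₀ 1 * 2) := by
    show _ = 1 / 2 + 1 / 4 + ((1 / 2 - sg) * 2)
    ring
  rw [e]
  exact h2

lemma p₀_hasSum : HasSum p₀ 1 := by
  have h : HasSum (fun k : ℕ => p₀ (k + 2)) sg := summable_tail.hasSum
  have h2 := (hasSum_nat_add_iff (f := p₀) 2).1 h
  simp only [sum_range_succ, range_zero, sum_empty, zero_add] at h2
  have e : (1 : ℝ) = sg + (p₀ 0 + p₀ 1) := by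
    show _ = sg + (1 / 2 + (1 / 2 - sg))
    ring
  rw [e]
  exact h2

lemma p₀_nonneg (k : ℕ) : 0 ≤ p₀ k := by
  match k with
  | 0 => show (0 : ℝ) ≤ 1 / 2; norm_num
  | 1 =>
    show (0 : ℝ) ≤ 1 / 2 - sg
    linarith [sg_le]
  | (k + 2) =>
    show (0 : ℝ) ≤ w k / 2 ^ (k + 2)
    have := w_pos k
    positivity

theorem good₀ : Good p₀ where
  nonneg := p₀_nonneg
  one := p₀_hasSum
  s0 := q_hasSum.summable
  s1 := q1_hasSum.summable
  crit := by rw [q1_hasSum.tsum_eq, q_hasSum.tsum_eq]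

/-- the laws -/
noncomputable def P : ℕ → ℕ → ℝ
  | 0 => p₀
  | (n + 1) => step (P n)

theorem goodP (n : ℕ) : Good (P n) := by
  induction n with
  | zero => exact good₀
  | succ n ih => exact ih.step_good

lemma T_start (n : ℕ) (hn : 1 ≤ n) : 1 / (8 * (n : ℝ) ^ 2) ≤ T (P 0) (2 * n) := by
  obtain ⟨n, rfl⟩ : ∃ k, n = k + 1 := ⟨n - 1, by omega⟩
  have hT : HasSum (fun k => p₀ (k + 2 * (n + 1)) * (2 : ℝ) ^ (k + 2 * (n + 1)))
      (T p₀ (2 * (n + 1))) :=
    (hasSum_nat_add_iff' (f := fun k => p₀ k * (2 : ℝ) ^ k) (2 * (n + 1))).2 good₀.s0.hasSum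
  have e : (fun k => p₀ (k + 2 * (n + 1)) * (2 : ℝ) ^ (k + 2 * (n + 1))) =
      fun k => w (k + 2 * n) := by
    funext k
    have e1 : k + 2 * (n + 1) = (k + 2 * n) + 2 := by ring
    rw [e1]
    exact q_tail _
  rw [e] at hT
  have h1 := hT.unique (sum_w (2 * n))
  show _ ≤ T p₀ (2 * (n + 1))
  rw [h1]
  push_cast
  apply one_div_le_one_div_of_le (by positivity)
  nlinarith [Nat.cast_nonneg (α := ℝ) n]

/-- The failure: no sequence of these laws obeys the predicted asymptotics at `s = 1/2`. -/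
theorem fails : ¬ Tendsto (fun n : ℕ => ((∑' k : ℕ, P n k * (1 / 2 : ℝ) ^ k) - 1) /
    (-(8 / 3) / ((n : ℝ) ^ 2))) atTop (𝓝 1) := by
  intro H
  have h1 : ∀ᶠ n : ℕ in atTop, 15 / 16 < ((∑' k : ℕ, P n k * (1 / 2 : ℝ) ^ k) - 1) /
      (-(8 / 3) / ((n : ℝ) ^ 2)) := H.eventually (lt_mem_nhds (by norm_num))
  obtain ⟨N, hN⟩ := eventually_atTop.1 h1
  refine contra (fun n => S (P n) - 1) (fun n => 1 - P n 0) (fun n K => T (P n) K)
    (fun n => by have := (goodP n).one_le_S; show 0 ≤ S (P n) - 1; linarith)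
    (fun n => by have := (goodP n).p0_le; show 0 ≤ 1 - P n 0; linarith)
    (fun n => by have := (goodP n).nonneg 0; show 1 - P n 0 ≤ 1; linarith)
    (fun n => ?_) ⟨max N 1, fun n hn => ?_⟩ T_start (fun n K hK => ?_)
    (fun n K => (goodP n).T_bound K) (fun n K => (goodP n).T_nonneg K)
  · have := (goodP n).S_step
    show 1 + (S (step (P n)) - 1) = ((1 + (S (P n) - 1)) ^ 2 + (1 - (1 - P n 0)) ^ 2) / 2
    rw [this]
    ring
  · have hn1 : 1 ≤ n := (le_max_right _ _).trans hn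
    have hn0 : (0 : ℝ) < n := by exact_mod_cast hn1
    have h2 := hN n ((le_max_left _ _).trans hn)
    have hneg : -(8 / 3 : ℝ) / ((n : ℝ) ^ 2) < 0 := by
      apply div_neg_of_neg_of_pos (by norm_num) (by positivity)
    rw [lt_div_iff_of_neg hneg] at h2
    have g := goodP n
    have hs : Summable fun k : ℕ => P n k * (1 / 2 : ℝ) ^ k := by
      refine Summable.of_nonneg_of_le (fun k => mul_nonneg (g.nonneg k) (by positivity))
        (fun k => ?_) g.one.summable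
      have h3 : (1 / 2 : ℝ) ^ k ≤ 1 := pow_le_one₀ (by norm_num) (by norm_num)
      have := g.nonneg k
      nlinarith
    have h4 : P n 0 ≤ ∑' k : ℕ, P n k * (1 / 2 : ℝ) ^ k := by
      have := le_hasSum hs.hasSum 0 fun k _ => mul_nonneg (g.nonneg k) (by positivity)
      simpa using this
    have h5 : (5 : ℝ) / 2 / (n : ℝ) ^ 2 = -(15 / 16 * (-(8 / 3) / (n : ℝ) ^ 2)) := by ring
    show (5 : ℝ) / 2 / (n : ℝ) ^ 2 ≤ 1 - P n 0
    rw [h5]
    linarith
  · have := (goodP n).T_step K hK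
    show T (P n) (K + 1) * (1 + (S (P n) - 1) - T (P n) (K + 1) / 2) ≤ T (step (P n)) K
    have e : 1 + (S (P n) - 1) - T (P n) (K + 1) / 2 = S (P n) - T (P n) (K + 1) / 2 := by ring
    rw [e]
    exact this

end Pool.Agent.Y975.DR
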